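import Pool.Agent.H78.CUR.Stmts

set_option linter.unusedVariables false

namespace CUR

open SW

section

variable {N : Type} [SetStr N] [ZF N]

theorem nu_mem_om (n : ℕ) : E (nu n) (om : N) := by
  induction n with
  | zero => exact emp_mem_om
  | succ n ih => exact suc_mem_om ih

theorem mem_nu (n : ℕ) (x : N) : E x (nu n : N) ↔ ∃ m, m < n ∧ x = nu m := by
  induction n with
  | zero =>
    constructor
    · intro h
      exact absurd h (not_mem_emp x)
    · rintro ⟨m, hm, _⟩
      omega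
  | succ n ih =>
    show E x (suc (nu n)) ↔ _
    rw [mem_suc, ih]
    constructor
    · rintro (⟨m, hm, rfl⟩ | rfl)
      · exact ⟨m, by omega, rfl⟩
      · exact ⟨n, by omega, rfl⟩
    · rintro ⟨m, hm, rfl⟩
      rcases Nat.lt_succ_iff_lt_or_eq.1 hm with h | rfl
      · exact Or.inl ⟨m, h, rfl⟩
      · exact Or.inr rfl

theorem nu_lt {m n : ℕ} (h : m < n) : E (nu m) (nu n : N) := (mem_nu n _).2 ⟨m, h, rfl⟩

theorem nu_inj {m n : ℕ} (h : (nu m : N) = nu n) : m = n := by
  rcases lt_trichotomy m n with h1 | h1 | h1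
  · have := nu_lt (N := N) h1
    rw [h] at this
    exact absurd this (not_mem_self _)
  · exact h1
  · have := nu_lt (N := N) h1
    rw [h] at this
    exact absurd this (not_mem_self _)

theorem isInd_iff (z : N) : IsInd z ↔ Ind z := by
  constructor
  · rintro ⟨⟨e, he, hz⟩, h⟩
    refine ⟨by rwa [← eq_emp he], fun y hy => ?_⟩
    obtain ⟨s, hs, hs'⟩ := h y hy
    have : s = suc y := ext fun w => by rw [hs, mem_suc]
    rwa [← this]
  · rintro ⟨h1, h2⟩
    exact ⟨⟨emp, not_mem_emp, h1⟩, fun y hy => ⟨suc y, fun w => mem_suc, h2 y hy⟩⟩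

theorem ind_om : Ind (om : N) := ⟨emp_mem_om, fun y hy => suc_mem_om hy⟩

theorem isOm_iff (w : N) : IsOm w ↔ w = om := by
  constructor
  · rintro ⟨h1, h2⟩
    refine ext fun n => ⟨fun h => h2 om ((isInd_iff _).2 ind_om) n h, fun h => ?_⟩
    exact mem_om.1 h w ((isInd_iff w).1 h1)
  · rintro rfl
    exact ⟨(isInd_iff _).2 ind_om, fun z hz n hn => mem_om.1 hn z ((isInd_iff z).1 hz)⟩

end

theorem cur_nu : NUStmt := by
  intro N _ _
  refine ⟨nu_mem_om, fun m n h => nu_inj h, fun m n => ⟨fun h => ?_, nu_lt⟩,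
    fun n x h => (mem_nu n x).1 h, isOm_iff⟩
  obtain ⟨k, hk, e⟩ := (mem_nu n _).1 h
  rw [nu_inj e]
  exact hk

/-- SP0 -/
theorem cur_sp0 : SP0Stmt := by
  intro hn N _ _ c D
  have hne : ∀ (n : ℕ) (G : N), opair (nu n) G ≠ emp := by
    intro n G h
    have : E (sing (nu n : N)) (opair (nu n) G) := by rw [opair]; simp
    rw [h] at this
    exact not_mem_emp _ this
  constructor
  · intro z y y' h h'
    rcases y with _ | ⟨n, θ⟩ <;> rcases y' with _ | ⟨n', θ'⟩
    · rfl
    · obtain ⟨G, e, _⟩ := h'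
      exact absurd (e.symm.trans h) (hne _ _)
    · obtain ⟨G, e, _⟩ := h
      exact absurd (e.symm.trans h') (hne _ _)
    · obtain ⟨G, e, hG⟩ := h
      obtain ⟨G', e', hG'⟩ := h'
      obtain ⟨e1, e2⟩ := opair_inj.1 (e.symm.trans e')
      have e1 := nu_inj e1
      subst e1
      subst e2
      rw [D.uniqT hG hG']
  · intro z z' y h h'
    rcases y with _ | ⟨n, θ⟩
    · exact h.trans h'.symm
    · obtain ⟨G, e, hG⟩ := h
      obtain ⟨G', e', hG'⟩ := h'
      rw [e, e', D.uniqG hG hG']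

end CUR
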