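import Pool.Agent.H78.CUR.NU

set_option linter.unusedVariables false
set_option linter.unusedSectionVars false
set_option synthInstance.maxSize 100000

/-!
Real numbers and cuts.
-/

namespace CUR

open SW

section

variable {N : Type} [SetStr N] [ZF N] (c : Codes N)

include c in
theorem cut_ext {x y : N} (hx : ∀ z, E z x → E z om) (hy : ∀ z, E z y → E z om)
    (h : ∀ j, E (nu j) x ↔ E (nu j) y) : x = y := by
  refine ext fun z => ⟨fun hz => ?_, fun hz => ?_⟩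
  · obtain ⟨j, rfl⟩ := c.std z (hx z hz)
    exact (h j).1 hz
  · obtain ⟨j, rfl⟩ := c.std z (hy z hz)
    exact (h j).2 hz

/-- rational numbers between two reals -/
theorem qq_btwn {a b : ℝ} (h : a < b) : ∃ j, a < qq j ∧ (qq j : ℝ) < b := by
  obtain ⟨q, h1, h2⟩ := exists_rat_btwn h
  obtain ⟨j, rfl⟩ := qq_surj q
  exact ⟨j, h1, h2⟩

theorem cut_uniqr {x : N} {r s : ℝ} (h : IsCutOf x r) (h' : IsCutOf x s) : r = s := by
  rcases lt_trichotomy r s with hl | he | hl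
  · obtain ⟨j, h1, h2⟩ := qq_btwn hl
    exact absurd ((h.2 j).1 ((h'.2 j).2 h2)) (not_lt.2 h1.le)
  · exact he
  · obtain ⟨j, h1, h2⟩ := qq_btwn hl
    exact absurd ((h'.2 j).1 ((h.2 j).2 h2)) (not_lt.2 h1.le)

theorem cut_iff (x : N) : CutU c.lt om x ↔ ∃ r, IsCutOf x r := by
  constructor
  · rintro ⟨h1, ⟨j0, h2⟩, ⟨j1, h3, h3'⟩, h4, h5⟩
    obtain ⟨j0, rfl⟩ := c.std j0 (h1 _ h2)
    obtain ⟨j1, rfl⟩ := c.std j1 h3
    let S : Set ℝ := {a | ∃ j, a = qq j ∧ E (nu j) x}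
    have hdown : ∀ i j, qq i < qq j → E (nu j) x → E (nu i) x := fun i j hij hj =>
      h4 _ _ (nu_mem_om i) hj (pairIn_iff.2 ((c.hlt i j).2 hij))
    have hb : ∀ a ∈ S, a ≤ qq j1 := by
      rintro a ⟨j, rfl, hj⟩
      by_contra hc
      exact h3' (hdown j1 j (by exact_mod_cast not_le.1 hc) hj)
    have hbdd : BddAbove S := ⟨_, hb⟩
    have hne : S.Nonempty := ⟨_, j0, rfl, h2⟩
    refine ⟨sSup S, h1, fun j => ⟨fun hj => ?_, fun hj => ?_⟩⟩
    · obtain ⟨i, hi, hi'⟩ := h5 _ hj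
      obtain ⟨i, rfl⟩ := c.std i (h1 _ hi)
      have h6 := (c.hlt _ _).1 (pairIn_iff.1 hi')
      have h7 : (qq i : ℝ) ≤ sSup S := le_csSup hbdd ⟨i, rfl, hi⟩
      exact lt_of_lt_of_le (by exact_mod_cast h6) h7
    · obtain ⟨a, ⟨i, rfl, hi⟩, hlt⟩ := exists_lt_of_lt_csSup hne hj
      exact hdown j i (by exact_mod_cast hlt) hi
  · rintro ⟨r, h1, h2⟩
    refine ⟨h1, ?_, ?_, ?_, ?_⟩
    · obtain ⟨j, _, hj⟩ := qq_btwn (show r - 1 < r by linarith)
      exact ⟨nu j, (h2 j).2 hj⟩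
    · obtain ⟨j, hj, _⟩ := qq_btwn (show r < r + 1 by linarith)
      exact ⟨nu j, nu_mem_om j, fun h => absurd ((h2 j).1 h) (not_lt.2 hj.le)⟩
    · intro i j hi hj hij
      obtain ⟨i, rfl⟩ := c.std i hi
      obtain ⟨j, rfl⟩ := c.std j (h1 _ hj)
      have h3 := (c.hlt _ _).1 (pairIn_iff.1 hij)
      exact (h2 i).2 (lt_trans (by exact_mod_cast h3) ((h2 j).1 hj))
    · intro j hj
      obtain ⟨j, rfl⟩ := c.std j (h1 _ hj)
      obtain ⟨i, hi, hi'⟩ := qq_btwn ((h2 j).1 hj)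
      exact ⟨nu i, (h2 i).2 hi', pairIn_iff.2 ((c.hlt j i).2 (by exact_mod_cast hi))⟩

theorem memK_iff (x : N) : E x (KS c) ↔ ∃ r, IsCutOf x r := by
  rw [KS, mem_sep, cut_iff]
  constructor
  · exact fun h => h.2
  · rintro ⟨r, h⟩
    exact ⟨mem_pow.2 h.1, r, h⟩

end

theorem cur_r1 : R1Stmt := by
  intro N _ _ c
  exact {
    uniq := fun x y r hx hy => cut_ext c hx.1 hy.1 fun j => (hx.2 j).trans (hy.2 j).symm
    uniqr := fun x r s h h' => cut_uniqr h h'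
    cut := cut_iff c
    memK := memK_iff c
    sup := by
      intro A s hA hs
      refine ⟨fun z hz => ?_, fun j => ?_⟩
      · obtain ⟨y, hy, hz⟩ := mem_sUn.1 hz
        obtain ⟨r, hr⟩ := hA y hy
        exact hr.1 z hz
      · rw [mem_sUn]
        constructor
        · rintro ⟨y, hy, hj⟩
          obtain ⟨r, hr⟩ := hA y hy
          exact lt_of_lt_of_le ((hr.2 j).1 hj) (hs.1 ⟨y, hy, hr⟩)
        · intro hj
          obtain ⟨r, ⟨y, hy, hr⟩, hlt⟩ := (lt_isLUB_iff hs).1 hj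
          exact ⟨y, hy, (hr.2 j).2 hlt⟩
    lt := by
      intro x y r s hx hy
      constructor
      · intro h
        obtain ⟨j, h1, h2⟩ := qq_btwn h
        exact ⟨nu j, (hy.2 j).2 h2, fun h3 => absurd ((hx.2 j).1 h3) (not_lt.2 h1.le)⟩
      · rintro ⟨z, hz, hz'⟩
        obtain ⟨j, rfl⟩ := c.std z (hy.1 z hz)
        by_contra hc
        exact hz' ((hx.2 j).2 (lt_of_lt_of_le ((hy.2 j).1 hz) (not_lt.1 hc))) }

end CUR
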