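import Pool.Agent.H78.CUR.Iface
import Pool.Agent.H35.SW.All
import Pool.Agent.H20.CU.ZFM

/-!
The statements of the modules about the real numbers of a model of ZF with standard natural
numbers and about the compact metric space.
-/

set_option linter.unusedVariables false
set_option synthInstance.maxSize 100000

namespace CUR

open SW

/-- NU: the natural numbers of a model of ZF -/
def NUStmt : Prop := ∀ (N : Type) [SetStr N] [ZF N],
  (∀ n, E (nu n) (om : N)) ∧ (∀ m n, (nu m : N) = nu n → m = n) ∧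
  (∀ m n, E (nu m) (nu n : N) ↔ m < n) ∧ (∀ n x, E x (nu n : N) → ∃ m, m < n ∧ x = nu m) ∧
  (∀ w : N, IsOm w ↔ w = om)

/-- FIN: finite sets -/
def FINStmt : Prop := ∀ (N : Type) [SetStr N] [ZF N] (x : N), Fin' x ↔ Fnt x

/-- R1: real numbers and cuts -/
structure R1Facts {N : Type} [SetStr N] [ZF N] (c : Codes N) : Prop where
  uniq : ∀ (x y : N) r, IsCutOf x r → IsCutOf y r → x = y
  uniqr : ∀ (x : N) r s, IsCutOf x r → IsCutOf x s → r = s
  cut : ∀ x : N, CutU c.lt om x ↔ ∃ r, IsCutOf x r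
  memK : ∀ x : N, E x (KS c) ↔ ∃ r, IsCutOf x r
  sup : ∀ (A : N) (s : ℝ), (∀ z, E z A → ∃ r, IsCutOf z r) →
    IsLUB {r | ∃ z, E z A ∧ IsCutOf z r} s → IsCutOf (sUn A) s
  lt : ∀ (x y : N) r s, IsCutOf x r → IsCutOf y s → (r < s ↔ ∃ z, E z y ∧ ¬ E z x)

/-- R1 -/
def R1Stmt : Prop := ∀ (N : Type) [SetStr N] [ZF N] (c : Codes N), R1Facts c

/-- R2: addition -/
structure R2Facts {N : Type} [SetStr N] [ZF N] (c : Codes N) : Prop where
  add : ∀ (x y : N) r s, IsCutOf x r → IsCutOf y s → ∃ z : N, IsCutOf z (r + s)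
  addU : ∀ (x y z : N) r s, IsCutOf x r → IsCutOf y s →
    (AddU c.ad om x y z ↔ IsCutOf z (r + s))
  neg : ∀ (x : N) r, IsCutOf x r → ∃ z : N, IsCutOf z (-r)
  rat : ∀ q : ℚ, ∃ z : N, IsCutOf z (q : ℝ)
  hc : DfT (fun w : Fin 1 → N => sep om (fun j => E (opair (w 0) j) c.hc)) ∧
    ∀ n : ℕ, IsCutOf (sep om (fun j => E (opair (nu n) j) c.hc)) (1 / ((n : ℝ) + 1))

/-- R2 -/
def R2Stmt : Prop := ∀ (N : Type) [SetStr N] [ZF N] (c : Codes N), R2Facts c

/-- R3: multiplication -/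
structure R3Facts {N : Type} [SetStr N] [ZF N] (c : Codes N) : Prop where
  mul : ∀ (x y : N) r s, IsCutOf x r → IsCutOf y s → ∃ z : N, IsCutOf z (r * s)
  inv : ∀ (x : N) r, IsCutOf x r → ∃ z : N, IsCutOf z r⁻¹
  mulD : Cl3 (fun x y z : N => ∃ r s, IsCutOf x r ∧ IsCutOf y s ∧ IsCutOf z (r * s))

/-- R3 -/
def R3Stmt : Prop := ∀ (N : Type) [SetStr N] [ZF N] (c : Codes N), R3Facts c

/-- R4: a real line exists -/
def R4Stmt : Prop := ∀ (N : Type) [SetStr N] [ZF N] (c : Codes N), Nonempty (Line c)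

/-- DZ: the distance on the coordinates -/
def DZStmt : Prop := (∀ y y', 0 ≤ dZ y y') ∧ (∀ y y', dZ y y' = 0 ↔ y = y') ∧
  (∀ y y', dZ y y' = dZ y' y) ∧ (∀ y y' y'', dZ y y'' ≤ dZ y y' + dZ y' y'')

/-- SP0: coordinates of points are unique -/
def SP0Stmt : Prop := NUStmt → ∀ (N : Type) [SetStr N] [ZF N] (c : Codes N) (D : DataN c),
  (∀ (z : N) y y', Pt D z y → Pt D z y' → y = y') ∧
  (∀ (z z' : N) y, Pt D z y → Pt D z' y → z = z')

/-- SP1: the space exists -/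
def SP1Stmt : Prop := ∀ (N : Type) [SetStr N] [ZF N] (c : Codes N) (D : DataN c),
  ∃ Y d τ : N, Space D Y d τ

/-- SP2: it is a metrizable topological space -/
def SP2Stmt : Prop := ∀ (N : Type) [SetStr N] [ZF N] (c : Codes N) (D : DataN c) (Y d τ : N),
  Space D Y d τ → IsTop Y τ ∧ Metrizable Y τ

/-- SP3a: every circle of the space is compact -/
def SP3aStmt : Prop := ∀ (N : Type) [SetStr N] [ZF N] (c : Codes N) (D : DataN c) (Y d τ : N),
  Space D Y d τ → ∀ C : N, (∀ U, E U C → E U τ) → (∀ z, E z Y → ∃ U, E U C ∧ E z U) →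
    ∀ n : ℕ, ∃ F, Fin' F ∧ (∀ U, E U F → E U C) ∧
      ∀ z θ, Pt D z (some (n, θ)) → ∃ U, E U F ∧ E z U

/-- SP3: it is compact -/
def SP3Stmt : Prop := ∀ (N : Type) [SetStr N] [ZF N] (c : Codes N) (D : DataN c) (Y d τ : N),
  Space D Y d τ → IsCpt Y τ

/-- SP4: it is not separable -/
def SP4Stmt : Prop := ∀ (N : Type) [SetStr N] [ZF N] (c : Codes N) (D : DataN c) (Y d τ : N),
  Space D Y d τ → ¬ IsSep Y τ

/-- COD: names of relations between natural numbers -/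
def CODStmt : Prop := ∀ (P G : Type) [Preorder P] [Group G] [MulAction G P]
  [CU.SymSys P G], ∃ code : (n : ℕ) → Set (Fin (n + 1) → ℕ) → CU.HN P G,
    (∀ n S (g : G) (p : P), CU.EqF (CU.act g (code n S).1) (code n S).1 p) ∧
    ∃ η : ℕ → CU.HN P G, ∀ (ν : ℕ → CU.HN P G) (c : ℕ → P), CU.Gn ν c →
      ∀ [ZF (CU.GQ ν c)], (∀ i, ∃ j, ν j = η i) →
      (∀ x : CU.GQ ν c, E x om → ∃ n, x = nu n) ∧
      (∀ m n, ν m = CU.numH P G n → CU.qc ν c m = nu n) ∧
      (∀ m, ν m = CU.omH P G → CU.qc ν c m = om) ∧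
      ∀ m n S, ν m = code n S → ∀ t : Fin (n + 1) → ℕ,
        E (tupv n (fun i => nu (t i))) (CU.qc ν c m) ↔ t ∈ S

/-- MOD: the model -/
def MODStmt : Prop := ∃ (N : Type) (_ : SetStr N) (_ : ZF N) (c : Codes N),
  Countable N ∧ WellFounded (fun x y : N => E x y) ∧ CUC N ∧ Nonempty (DataN c)

end CUR
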