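import Pool.Agent.H78.CUR.NU

set_option linter.unusedVariables false
set_option linter.unusedSectionVars false

/-!
Names of relations between natural numbers.
-/

namespace CUR

open SW CU

section

variable {P : Type} [Preorder P] {G : Type} [Group G] [MulAction G P] [H : SymSys P G]

/-- the name is invariant under the whole group -/
def Inv (G : Type) [Group G] [MulAction G P] (a : Nm P) : Prop :=
  ∀ (g : G) (p : P), EqF (act g a) a p

theorem famN_inv {ι : Type} {x : ι → Nm P} (h : ∀ i, Inv G (x i)) : Inv G (famN x) := by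
  intro g p
  refine eqF_ext (fun i q hq hc => ?_) (fun i q hq hc => ?_)
  · exact memF_congl (eqF_symm (h i.1 g q)) (memF_famN x i.1 q)
  · exact memF_congl (h i.1 g q) (act_famN_mem x g i.1 q)

theorem pairN_inv {a b : HN P G} (ha : Inv G a.1) (hb : Inv G b.1) : Inv G (pairN a b).1 :=
  famN_inv (x := fun t : Bool => if t then a.1 else b.1) (fun t => by
    cases t
    · exact hb
    · exact ha)

/-- ordered pair -/
def opN (a b : HN P G) : HN P G := pairN (pairN a a) (pairN a b)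

theorem opN_inv {a b : HN P G} (ha : Inv G a.1) (hb : Inv G b.1) : Inv G (opN a b).1 :=
  pairN_inv (pairN_inv ha ha) (pairN_inv ha hb)

variable (P G) in
/-- names of tuples of natural numbers -/
def tupH : (n : ℕ) → (Fin (n + 1) → ℕ) → HN P G
  | 0, t => numH P G (t 0)
  | n + 1, t => opN (numH P G (t 0)) (tupH n (fun i => t i.succ))

theorem tupH_inv (n : ℕ) (t : Fin (n + 1) → ℕ) : Inv G (tupH P G n t).1 := by
  induction n with
  | zero => exact fun g p => numN_act g _ p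
  | succ n ih => exact opN_inv (fun g p => numN_act g _ p) (ih _)

variable (P G) in
/-- names of relations between natural numbers -/
def codeH (n : ℕ) (S : Set (Fin (n + 1) → ℕ)) : HN P G :=
  ⟨famN (fun j : S => (tupH P G n j.1).1), famN_hr (T := H.S0) (fun j => (tupH P G n j.1).2)
    (famN_sy fun g hg i q => memF_congl (eqF_symm (tupH_inv n i.1 g q))
      (memF_famN (fun j : S => (tupH P G n j.1).1) i q))⟩

theorem codeH_inv (n : ℕ) (S : Set (Fin (n + 1) → ℕ)) : Inv G (codeH P G n S).1 :=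
  famN_inv fun j : S => tupH_inv n j.1

/-- all the names used -/
def Wn (P G : Type) [Preorder P] [Group G] [MulAction G P] [H : SymSys P G] : Set (HN P G) :=
  Set.range (numH P G) ∪ {omH P G} ∪
  Set.range (fun a : Σ n : ℕ, Fin (n + 1) → ℕ => tupH P G a.1 a.2) ∪
  Set.range (fun k : ℕ => pairN (numH P G k) (numH P G k)) ∪
  Set.range (fun a : ℕ × Σ n : ℕ, Fin (n + 1) → ℕ => pairN (numH P G a.1) (tupH P G a.2.1 a.2.2))

theorem Wn_countable : (Wn P G).Countable := by
  refine ((((Set.countable_range _).union (Set.countable_singleton _)).union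
    (Set.countable_range _)).union (Set.countable_range _)).union (Set.countable_range _)

end

theorem tupv_inj {N : Type} [SetStr N] [ZF N] (n : ℕ) (t s : Fin (n + 1) → ℕ)
    (h : tupv n (fun i => (nu (t i) : N)) = tupv n (fun i => nu (s i))) : t = s := by
  induction n with
  | zero =>
    funext i
    have : i = 0 := by omega
    rw [this]
    exact nu_inj h
  | succ n ih =>
    obtain ⟨h1, h2⟩ := opair_inj.1 h
    have h3 := ih (fun i => t i.succ) (fun i => s i.succ) h2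
    funext i
    refine Fin.cases ?_ (fun j => ?_) i
    · exact nu_inj h1
    · exact congrFun h3 j

theorem cur_cod : CODStmt := by
  intro P G _ _ _ _
  obtain ⟨η, hη⟩ := (Wn_countable (P := P) (G := G)).exists_eq_range
    ⟨numH P G 0, Or.inl (Or.inl (Or.inl (Or.inl ⟨0, rfl⟩)))⟩
  refine ⟨codeH P G, fun n S g p => codeH_inv n S g p, η, ?_⟩
  intro ν c hg _ hf
  have hW : ∀ x ∈ Wn P G, ∃ j, ν j = x := by
    intro x hx
    rw [hη] at hx
    obtain ⟨i, rfl⟩ := hx
    exact hf i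
  choose u hu using fun n : ℕ => hW (numH P G n) (Or.inl (Or.inl (Or.inl (Or.inl ⟨n, rfl⟩))))
  obtain ⟨o, ho⟩ := hW (omH P G) (Or.inl (Or.inl (Or.inl (Or.inr rfl))))
  have hnum : ∀ n, qc ν c (u n) = nu n := by
    intro n
    induction n using Nat.strong_induction_on with
    | _ n ih =>
      refine ext fun y => ?_
      rw [gn_num hg hu, mem_nu]
      constructor
      · rintro ⟨i, hi, rfl⟩
        exact ⟨i, hi, ih i hi⟩
      · rintro ⟨i, hi, rfl⟩
        exact ⟨i, hi, (ih i hi).symm⟩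
  have hnum' : ∀ m n, ν m = numH P G n → qc ν c m = nu n := by
    intro m n h
    rw [← hnum n]
    exact (gn_eq_iff hg _ _).2 ⟨0, by rw [h, hu]; exact eqF_refl _ _⟩
  have hom : ∀ m, ν m = omH P G → qc ν c m = om := by
    intro m h
    have h1 : ∀ y, E y (qc ν c m) ↔ ∃ n, y = nu n := by
      intro y
      rw [gn_om hg h hu]
      constructor
      · rintro ⟨n, rfl⟩
        exact ⟨n, hnum n⟩
      · rintro ⟨n, rfl⟩
        exact ⟨n, (hnum n).symm⟩
    refine (isOm_iff _).1 ⟨?_, ?_⟩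
    · rw [isInd_iff]
      refine ⟨(h1 _).2 ⟨0, rfl⟩, fun y hy => ?_⟩
      obtain ⟨n, rfl⟩ := (h1 _).1 hy
      exact (h1 _).2 ⟨n + 1, rfl⟩
    · intro z hz y hy
      rw [isInd_iff] at hz
      obtain ⟨n, rfl⟩ := (h1 _).1 hy
      clear hy
      induction n with
      | zero => exact hz.1
      | succ n ih => exact hz.2 _ ih
  have hstd : ∀ x : GQ ν c, E x om → ∃ n, x = nu n := by
    intro x hx
    rw [← hom o ho, gn_om hg ho hu] at hx
    obtain ⟨n, rfl⟩ := hx
    exact ⟨n, hnum n⟩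
  have htup : ∀ n (t : Fin (n + 1) → ℕ) m, ν m = tupH P G n t →
      qc ν c m = tupv n (fun i => nu (t i)) := by
    intro n
    induction n with
    | zero =>
      intro t m h
      exact hnum' m _ h
    | succ n ih =>
      intro t m h
      obtain ⟨j, hj⟩ := hW (tupH P G n (fun i => t i.succ))
        (Or.inl (Or.inl (Or.inr ⟨⟨n, _⟩, rfl⟩)))
      obtain ⟨m1, hm1⟩ := hW (pairN (numH P G (t 0)) (numH P G (t 0)))
        (Or.inl (Or.inr ⟨t 0, rfl⟩))
      obtain ⟨m2, hm2⟩ := hW (pairN (numH P G (t 0)) (tupH P G n (fun i => t i.succ)))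
        (Or.inr ⟨(t 0, ⟨n, _⟩), rfl⟩)
      have e : ν m = pairN (ν m1) (ν m2) := by rw [h, hm1, hm2]; rfl
      show _ = opair (nu (t 0)) (tupv n (fun i => nu (t i.succ)))
      rw [← ih _ j hj, ← hnum (t 0)]
      refine ext fun y => ?_
      rw [gn_pairN hg e, opair]
      have e1 : qc ν c m1 = sing (qc ν c (u (t 0))) := by
        refine ext fun w => ?_
        rw [gn_pairN hg (i := u (t 0)) (j := u (t 0)) (by rw [hm1, hu]), mem_sing, or_self]
      have e2 : qc ν c m2 = upair (qc ν c (u (t 0))) (qc ν c j) := by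
        refine ext fun w => ?_
        rw [gn_pairN hg (i := u (t 0)) (j := j) (by rw [hm2, hu, hj]), mem_upair]
      rw [mem_upair, e1, e2]
  refine ⟨hstd, hnum', hom, ?_⟩
  intro m n S hm t
  choose f hf' using fun s : S => hW (tupH P G n s.1) (Or.inl (Or.inl (Or.inr ⟨⟨n, s.1⟩, rfl⟩)))
  rw [gn_famN' hg (x := fun j : S => (tupH P G n j.1).1) (by rw [hm]; rfl) (f := f)
    (fun i => by rw [hf'])]
  constructor
  · rintro ⟨s, hs⟩
    rw [htup n s.1 (f s) (hf' s)] at hs
    rw [tupv_inj n t s.1 hs]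
    exact s.2
  · intro ht
    exact ⟨⟨t, ht⟩, (htup n t _ (hf' ⟨t, ht⟩)).symm⟩

/-- all generic quotients with suitable names have codes -/
theorem exists_codes (P G : Type) [Preorder P] [Group G] [MulAction G P] [SymSys P G] :
    ∃ η : ℕ → HN P G, ∀ (ν : ℕ → HN P G) (c : ℕ → P), Gn ν c → ∀ [ZF (GQ ν c)],
      (∀ i, ∃ j, ν j = η i) → Nonempty (Codes (GQ ν c)) ∧
      (∀ m n, ν m = numH P G n → qc ν c m = nu n) ∧ (∀ m, ν m = omH P G → qc ν c m = om) := by
  obtain ⟨code, _, η, h⟩ := cur_cod P G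
  let S1 : Set (Fin 2 → ℕ) := {t | qq (t 0) < qq (t 1)}
  let S2 : Set (Fin 3 → ℕ) := {t | qq (t 2) ≤ qq (t 0) + qq (t 1)}
  let S3 : Set (Fin 2 → ℕ) := {t | (qq (t 1) : ℝ) < 1 / ((t 0 : ℝ) + 1)}
  let S4 : Set (Fin 5 → ℕ) := {t | ∀ a b : ℝ,
    qq (t 0) < a → a ≤ qq (t 1) → qq (t 2) < b → b ≤ qq (t 3) → qq (t 4) < a * b}
  let S5 : Set (Fin 3 → ℕ) := {t | ∀ a : ℝ, qq (t 0) < a → a ≤ qq (t 1) → qq (t 2) < a⁻¹}
  let w : Fin 5 → HN P G := ![code 1 S1, code 2 S2, code 1 S3, code 4 S4, code 2 S5]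
  refine ⟨fun i => if hi : i < 5 then w ⟨i, hi⟩ else η (i - 5), ?_⟩
  intro ν c hg _ hf
  have hη : ∀ i, ∃ j, ν j = η i := by
    intro i
    obtain ⟨j, hj⟩ := hf (i + 5)
    simp only at hj
    rw [dif_neg (by omega)] at hj
    exact ⟨j, by rw [hj]; congr 1⟩
  have hw : ∀ i : Fin 5, ∃ j, ν j = w i := by
    intro i
    obtain ⟨j, hj⟩ := hf i.1
    simp only at hj
    rw [dif_pos i.2] at hj
    exact ⟨j, hj⟩
  obtain ⟨h1, h2, h3, h4⟩ := h ν c hg hη
  refine ⟨?_, h2, h3⟩
  obtain ⟨m0, e0⟩ := hw 0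
  obtain ⟨m1, e1⟩ := hw 1
  obtain ⟨m2, e2⟩ := hw 2
  obtain ⟨m3, e3⟩ := hw 3
  obtain ⟨m4, e4⟩ := hw 4
  refine ⟨⟨qc ν c m0, qc ν c m1, qc ν c m2, qc ν c m3, qc ν c m4, h1, ?_, ?_, ?_, ?_, ?_⟩⟩
  · intro i j
    exact h4 m0 1 S1 e0 ![i, j]
  · intro i j k
    exact h4 m1 2 S2 e1 ![i, j, k]
  · intro n j
    exact h4 m2 1 S3 e2 ![n, j]
  · intro t
    exact h4 m3 4 S4 e3 t
  · intro t
    exact h4 m4 2 S5 e4 t

end CUR
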