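import Pool.Agent.H78.CUR.NU

set_option linter.unusedVariables false
set_option linter.unusedSectionVars false
set_option synthInstance.maxSize 100000

/-!
Compactness of the space.
-/

namespace CUR

open SW

theorem cur_sp3 (hf : FINStmt) (h3 : SP3aStmt) : SP3Stmt := by
  intro N _ _ c D Y d τ hS C hC hcov
  have hY0 : E (emp : N) Y := (hS.memY _).2 ⟨none, rfl⟩
  obtain ⟨U0, hU0, h0⟩ := hcov _ hY0
  obtain ⟨ε, hε, hU⟩ := ((hS.memτ U0).1 (hC _ hU0)).2 emp none h0 rfl
  obtain ⟨n0, hn0⟩ := exists_nat_one_div_lt hε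
  have key : ∀ m : ℕ, ∃ F : N, Fnt F ∧ (∀ U, E U F → E U C) ∧
      ∀ n < m, ∀ z θ, Pt D z (some (n, θ)) → ∃ U, E U F ∧ E z U := by
    intro m
    induction m with
    | zero =>
      exact ⟨emp, (fin N).emp, fun U hU => absurd hU (not_mem_emp U), fun n hn => by omega⟩
    | succ m ih =>
      obtain ⟨F, h1, h2, h4⟩ := ih
      obtain ⟨F', k1, k2, k4⟩ := h3 N c D Y d τ hS C hC hcov m
      refine ⟨bun F F', (fin N).bun h1 ((hf N F').1 k1), fun U hU => ?_, fun n hn z θ hz => ?_⟩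
      · rcases mem_bun.1 hU with h | h
        · exact h2 U h
        · exact k2 U h
      · rcases Nat.lt_succ_iff_lt_or_eq.1 hn with h | rfl
        · obtain ⟨U, hU, hz'⟩ := h4 n h z θ hz
          exact ⟨U, mem_bun.2 (Or.inl hU), hz'⟩
        · obtain ⟨U, hU, hz'⟩ := k4 z θ hz
          exact ⟨U, mem_bun.2 (Or.inr hU), hz'⟩
  obtain ⟨F, h1, h2, h4⟩ := key n0
  refine ⟨ins U0 F, (hf N _).2 ((fin N).ins h1), fun U hU => ?_, fun z hz => ?_⟩
  · rcases mem_ins.1 hU with h | rfl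
    · exact h2 U h
    · exact hU0
  · obtain ⟨y, hy⟩ := (hS.memY z).1 hz
    rcases y with _ | ⟨n, θ⟩
    · have e : z = emp := hy
      rw [e]
      exact ⟨U0, mem_ins.2 (Or.inr rfl), h0⟩
    · by_cases hn : n < n0
      · obtain ⟨U, hU, hz'⟩ := h4 n hn z θ hy
        exact ⟨U, mem_ins.2 (Or.inl hU), hz'⟩
      · refine ⟨U0, mem_ins.2 (Or.inr rfl), hU z _ hy ?_⟩
        show (1 : ℝ) / ((n : ℝ) + 1) < ε
        refine lt_of_le_of_lt ?_ hn0
        exact one_div_le_one_div_of_le (by positivity) (by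
          have : (n0 : ℝ) ≤ n := by exact_mod_cast not_lt.1 hn
          linarith)

end CUR
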