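import Pool.Agent.H78.CUR.Asm
import Pool.Agent.H78.CUR.NU
import Pool.Agent.H78.CUR.SP3
import Pool.Agent.H78.CUR.R1
import Pool.Agent.H31.CUR.R4
import Pool.Agent.H31.CUR.R3
import Pool.Agent.H31.CUR.R2
import Pool.Agent.H46.CUR.FIN
import Pool.Agent.H46.CUR.SP3a
import Pool.Agent.H46.CUR.SP4
import Pool.Agent.H60.CUR.DZ
import Pool.Agent.H60.CUR.SP2
import Pool.Agent.H17.CUR.SP1
import Pool.Agent.H20.CU.Noc

/-!
The final assembly: the modules of the space part and the model.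
-/

namespace CUR

open SW

theorem allR2 : R2Stmt := cur_r2 cur_nu cur_r1

theorem allR3 : R3Stmt := cur_r3 cur_nu cur_r1

theorem allR4 : R4Stmt := cur_r4 cur_r1 allR2 allR3

theorem allFIN : FINStmt := cur_fin cur_nu

theorem allSP0 : SP0Stmt := cur_sp0

theorem allSP3a : SP3aStmt := cur_sp3a cur_nu cur_r1 allR2 allFIN allSP0

theorem allSP3 : SP3Stmt := cur_sp3 allFIN allSP3a

theorem allSP4 : SP4Stmt := cur_sp4 cur_nu allSP0

theorem allSP2 : SP2Stmt := cur_sp2 cur_nu cur_r1 allR2 allR4 cur_dz allSP0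

theorem allMOD : MODStmt := CU.mod_of allR2

theorem final : ∃ (N : Type) (_ : SetStr N), ZF N ∧ Countable N ∧
    WellFounded (fun x y : N => E x y) ∧ CUC N ∧ ¬ MCS N :=
  main allMOD cur_sp1 allSP2 allSP3 allSP4

end CUR
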