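import Pool.Agent.H78.CUR.Stmts

/-!
Assembly of the modules.
-/

set_option linter.unusedVariables false

namespace CUR

open SW

/-- the main theorem from the modules -/
theorem main (hm : MODStmt) (h1 : SP1Stmt) (h2 : SP2Stmt) (h3 : SP3Stmt) (h4 : SP4Stmt) :
    ∃ (N : Type) (_ : SetStr N), ZF N ∧ Countable N ∧ WellFounded (fun x y : N => E x y) ∧
      CUC N ∧ ¬ MCS N := by
  obtain ⟨N, _, hzf, c, hcnt, hwf, hcuc, ⟨D⟩⟩ := hm
  refine ⟨N, inferInstance, hzf, hcnt, hwf, hcuc, fun hs => ?_⟩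
  obtain ⟨Y, d, τ, hS⟩ := h1 N c D
  obtain ⟨ht, hmet⟩ := h2 N c D Y d τ hS
  exact h4 N c D Y d τ hS (hs Y τ ht (h3 N c D Y d τ hS) hmet)

end CUR
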