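import Pool.Agent.H35.SW.GenExt
import Mathlib.Algebra.Order.Ring.Defs
import Mathlib.Algebra.Field.Defs
import Mathlib.Order.Bounds.Defs

/-!
The notions of the final statement, for an arbitrary structure `(N, E)` for the language of set
theory: countable sets, the countable union condition, compact metrizable spaces, separability.
-/

set_option linter.unusedVariables false
set_option synthInstance.maxSize 100000

namespace CUR

open SW

section

variable {N : Type} [SetStr N]

/-- `e` is empty -/
def IsEmp (e : N) : Prop := ∀ z, ¬ E z e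

/-- `s` is the successor `y ∪ {y}` -/
def IsSuc (s y : N) : Prop := ∀ w, E w s ↔ E w y ∨ w = y

/-- `z` contains the empty set and is closed under successors -/
def IsInd (z : N) : Prop := (∃ e, IsEmp e ∧ E e z) ∧ ∀ y, E y z → ∃ s, IsSuc s y ∧ E s z

/-- `w` is the set of natural numbers (the least inductive set) -/
def IsOm (w : N) : Prop := IsInd w ∧ ∀ z, IsInd z → ∀ n, E n w → E n z

/-- `f` is an injective function with domain `x` and values in `w` -/
def InjFun (f x w : N) : Prop :=
  (∀ z, E z f → ∃ b j, E b x ∧ E j w ∧ IsOP z b j) ∧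
  (∀ b, E b x → ∃ j, PairIn b j f) ∧
  (∀ b j j', PairIn b j f → PairIn b j' f → j = j') ∧
  (∀ b b' j, PairIn b j f → PairIn b' j f → b = b')

/-- `x` is countable: there is an injective function from `x` to the set of natural numbers -/
def Ctb (x : N) : Prop := ∃ w f, IsOm w ∧ InjFun f x w

/-- `x` is finite: there is an injective function from `x` to a natural number -/
def Fin' (x : N) : Prop := ∃ w n f, IsOm w ∧ E n w ∧ InjFun f x n

/-- `((x, y), z) ∈ R` -/
def Tri (x y z R : N) : Prop := ∃ u, IsOP u x y ∧ PairIn u z R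

end

/-- The union of every countable family of countable sets is countable. -/
def CUC (N : Type) [SetStr N] : Prop :=
  ∀ F : N, Ctb F → (∀ x, E x F → Ctb x) →
    ∀ u, (∀ w, E w u ↔ ∃ x, E x F ∧ E w x) → Ctb u

section

variable {N : Type} [SetStr N]

/-- `τ` is a topology on the set `S` -/
def IsTop (S τ : N) : Prop :=
  (∀ U, E U τ → ∀ x, E x U → E x S) ∧
  (∀ U, (∀ x, E x U ↔ E x S) → E U τ) ∧
  (∀ U V W, E U τ → E V τ → (∀ x, E x W ↔ E x U ∧ E x V) → E W τ) ∧
  (∀ C W, (∀ U, E U C → E U τ) → (∀ x, E x W ↔ ∃ U, E U C ∧ E x U) → E W τ)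

/-- Every cover of `S` by open sets has a finite subcover. -/
def IsCpt (S τ : N) : Prop :=
  ∀ C, (∀ U, E U C → E U τ) → (∀ x, E x S → ∃ U, E U C ∧ E x U) →
    ∃ D, Fin' D ∧ (∀ U, E U D → E U C) ∧ ∀ x, E x S → ∃ U, E U D ∧ E x U

/-- There is a countable dense subset. -/
def IsSep (S τ : N) : Prop :=
  ∃ D, (∀ x, E x D → E x S) ∧ Ctb D ∧ ∀ U, E U τ → (∃ x, E x U) → ∃ x, E x U ∧ E x D

/-- `K` with the operations and the order coded by the sets `ad`, `mu`, `lt` is a real line of
`N`: an ordered field in which every nonempty bounded set (of `N`) has a least upper bound; and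
`d` is a metric on `S` with values in `K` whose open sets are the members of `τ`. -/
def IsMetr (S τ K ad mu lt d : N) : Prop :=
  ∃ (_ : Field {x : N // E x K}) (_ : LinearOrder {x : N // E x K})
    (_ : IsStrictOrderedRing {x : N // E x K}),
    (∀ a b c : {x : N // E x K}, Tri a.1 b.1 c.1 ad ↔ a + b = c) ∧
    (∀ a b c : {x : N // E x K}, Tri a.1 b.1 c.1 mu ↔ a * b = c) ∧
    (∀ a b : {x : N // E x K}, PairIn a.1 b.1 lt ↔ a < b) ∧
    (∀ A : N, (∃ a : {x : N // E x K}, E a.1 A) →
      (∃ b : {x : N // E x K}, ∀ a : {x : N // E x K}, E a.1 A → a ≤ b) →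
      ∃ b : {x : N // E x K}, IsLUB {a : {x : N // E x K} | E a.1 A} b) ∧
    ∃ δ : {x : N // E x S} → {x : N // E x S} → {x : N // E x K},
      (∀ x y r, Tri x.1 y.1 r.1 d ↔ δ x y = r) ∧
      (∀ x y, δ x y = 0 ↔ x = y) ∧ (∀ x y, δ x y = δ y x) ∧
      (∀ x y z, δ x z ≤ δ x y + δ y z) ∧
      ∀ U : N, E U τ ↔ (∀ x, E x U → E x S) ∧
        ∀ x : {x : N // E x S}, E x.1 U →
          ∃ ε : {x : N // E x K}, 0 < ε ∧ ∀ y : {x : N // E x S}, δ x y < ε → E y.1 U

/-- The topology is induced by a metric. -/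
def Metrizable (S τ : N) : Prop := ∃ K ad mu lt d : N, IsMetr S τ K ad mu lt d

end

/-- `M(C, S)`: every compact metrizable topological space is separable. -/
def MCS (N : Type) [SetStr N] : Prop :=
  ∀ S τ : N, IsTop S τ → IsCpt S τ → Metrizable S τ → IsSep S τ

end CUR
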