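import Pool.Agent.H78.CUR.Real

/-!
The interface between the construction of the model and the theory inside the model: a sequence
of circles (torsors of the group of real numbers modulo 1) without choice function; the
compact metric space built from them.
-/

set_option linter.unusedVariables false
set_option synthInstance.maxSize 100000

namespace CUR

open SW

section

variable {N : Type} [SetStr N] [ZF N]

/-- A sequence of circles in the structure `N` without choice function. `K n θ G` says that `G` is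
the point with (external) coordinate `θ` of the circle number `n`. -/
structure DataN (c : Codes N) where
  K : ℕ → T → N → Prop
  /-- the set of all pairs `(n, G)`, where `G` is a point of the circle number `n` -/
  C : N
  memC : ∀ z : N, E z C ↔ ∃ (n : ℕ) (θ : T) (G : N), z = opair (nu n) G ∧ K n θ G
  /-- the code of the action of the real numbers -/
  tr : N
  memtr : ∀ (n : ℕ) (G G' t : N), E (opair (opair (nu n) G) (opair G' t)) tr ↔
    ∃ (θ : T) (s : ℝ), K n θ G ∧ IsCutOf t s ∧ K n (θ + (s : T)) G'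
  ne : ∀ n, ∃ θ G, K n θ G
  uniqG : ∀ {n : ℕ} {θ : T} {G G' : N}, K n θ G → K n θ G' → G = G'
  uniqT : ∀ {n : ℕ} {θ η : T} {G : N}, K n θ G → K n η G → θ = η
  add : ∀ {n : ℕ} {θ : T} {G t : N} {s : ℝ}, K n θ G → IsCutOf t s → ∃ G', K n (θ + (s : T)) G'
  sub : ∀ {n : ℕ} {θ η : T} {G G' : N}, K n θ G → K n η G' →
    ∃ (t : N) (s : ℝ), IsCutOf t s ∧ η = θ + (s : T)
  nochoice : ¬ ∃ h : N, ∀ n, ∃ G, FunAt h (nu n) G ∧ ∃ θ, K n θ G

variable {c : Codes N}

/-- coordinates of points: `none` is the point at infinity -/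
def Pt (D : DataN c) (z : N) : Option (ℕ × T) → Prop
  | none => z = emp
  | some (n, θ) => ∃ G, z = opair (nu n) G ∧ D.K n θ G

/-- the distance -/
noncomputable def dZ : Option (ℕ × T) → Option (ℕ × T) → ℝ
  | none, none => 0
  | none, some (n, _) => 1 / ((n : ℝ) + 1)
  | some (n, _), none => 1 / ((n : ℝ) + 1)
  | some (n, θ), some (m, η) => if n = m then min ‖θ - η‖ (1 / ((n : ℝ) + 1))
      else max (1 / ((n : ℝ) + 1)) (1 / ((m : ℝ) + 1))

/-- the compact metric space: its points, its metric and its topology in `N` -/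
structure Space (D : DataN c) (Y d τ : N) : Prop where
  memY : ∀ z, E z Y ↔ ∃ y, Pt D z y
  memd : ∀ z z' w, Tri z z' w d ↔ ∃ y y', Pt D z y ∧ Pt D z' y' ∧ IsCutOf w (dZ y y')
  dist : ∀ (z z' : N) (y y' : Option (ℕ × T)), Pt D z y → Pt D z' y' →
    ∃ w : N, IsCutOf w (dZ y y')
  memτ : ∀ U, E U τ ↔ (∀ z, E z U → E z Y) ∧ ∀ z y, E z U → Pt D z y →
    ∃ ε > 0, ∀ z' y', Pt D z' y' → dZ y y' < ε → E z' U

end

end CUR
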