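import Pool.Agent.H78.CUR.Defs
import Mathlib.Topology.Instances.AddCircle.Real
import Mathlib.Data.Rat.Denumerable
import Pool.Agent.H35.SW.Ord

/-!
Real numbers in a structure with standard natural numbers; translates of sets of reals; the
metric space. All relations used in forced statements are given for arbitrary structures
and shown to be uniformly definable.
-/

set_option linter.unusedVariables false
set_option synthInstance.maxSize 100000

namespace CUR

open SW

/-- the circle -/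
abbrev T : Type := AddCircle (1 : ℝ)

/-- an enumeration of the rationals -/
noncomputable def qq (j : ℕ) : ℚ := (Denumerable.eqv ℚ).symm j

theorem qq_surj (q : ℚ) : ∃ j, qq j = q := (Denumerable.eqv ℚ).symm.surjective q

theorem qq_inj {i j : ℕ} (h : qq i = qq j) : i = j := (Denumerable.eqv ℚ).symm.injective h

/-! ### relations for arbitrary structures -/

section

variable {N : Type} [SetStr N]

/-- `x` is a cut: nonempty, proper, closed downwards, without maximum; `w` is the set of natural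
numbers, `lt` the code of the order of the rationals -/
def CutU (lt w x : N) : Prop :=
  (∀ z, E z x → E z w) ∧ (∃ j, E j x) ∧ (∃ j, E j w ∧ ¬ E j x) ∧
  (∀ i j, E i w → E j x → PairIn i j lt → E i x) ∧
  (∀ j, E j x → ∃ i, E i x ∧ PairIn j i lt)

/-- `(x, (y, z)) ∈ R` -/
def Trr (x y z R : N) : Prop := ∃ u, IsOP u y z ∧ PairIn x u R

/-- `z` is the sum of the cuts `x` and `y`; `ad` is the code of `qq k ≤ qq i + qq j` -/
def AddU (ad w x y z : N) : Prop :=
  ∀ k, E k z ↔ E k w ∧ ∃ i j, E i x ∧ E j y ∧ Trr i j k ad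

/-- `h` has the unique value `g` at `v` -/
def FunAt (h v g : N) : Prop := PairIn v g h ∧ ∀ g', PairIn v g' h → g' = g

end

theorem Tri_u : UDf (fun M _ (w : Fin 4 → M) => Tri (w 0) (w 1) (w 2) (w 3)) := by
  unfold Tri; infer_instance

instance {n : ℕ} {t s u x : ∀ (M : Type) [SetStr M], (Fin n → M) → M} [UV t] [UV s] [UV u]
    [UV x] : UDf (fun M _ v => Tri (t M v) (s M v) (u M v) (x M v)) :=
  Tri_u.comp4 (R := fun _ _ a b c d => Tri a b c d) t s u x

instance {M : Type} [SetStr M] {n : ℕ} {t s u x : (Fin n → M) → M} [ht : DfT t] [hs : DfT s]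
    [hu : DfT u] [hx : DfT x] : Df (fun v => Tri (t v) (s v) (u v) (x v)) :=
  (Tri_u.df M).comp4 (R := fun a b c d => Tri a b c d) ht hs hu hx

theorem Trr_u : UDf (fun M _ (w : Fin 4 → M) => Trr (w 0) (w 1) (w 2) (w 3)) := by
  unfold Trr; infer_instance

instance {n : ℕ} {t s u x : ∀ (M : Type) [SetStr M], (Fin n → M) → M} [UV t] [UV s] [UV u]
    [UV x] : UDf (fun M _ v => Trr (t M v) (s M v) (u M v) (x M v)) :=
  Trr_u.comp4 (R := fun _ _ a b c d => Trr a b c d) t s u x

instance {M : Type} [SetStr M] {n : ℕ} {t s u x : (Fin n → M) → M} [ht : DfT t] [hs : DfT s]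
    [hu : DfT u] [hx : DfT x] : Df (fun v => Trr (t v) (s v) (u v) (x v)) :=
  (Trr_u.df M).comp4 (R := fun a b c d => Trr a b c d) ht hs hu hx

theorem IsEmp_u : UDf (fun M _ (w : Fin 1 → M) => IsEmp (w 0)) := by
  unfold IsEmp; infer_instance

instance {n : ℕ} {t : ∀ (M : Type) [SetStr M], (Fin n → M) → M} [UV t] :
    UDf (fun M _ v => IsEmp (t M v)) := IsEmp_u.comp1 (R := fun _ _ a => IsEmp a) t

instance {M : Type} [SetStr M] {n : ℕ} {t : (Fin n → M) → M} [ht : DfT t] :
    Df (fun v => IsEmp (t v)) := (IsEmp_u.df M).comp1 (R := fun a => IsEmp a) ht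

theorem IsSuc_u : UDf (fun M _ (w : Fin 2 → M) => IsSuc (w 0) (w 1)) := by
  unfold IsSuc; infer_instance

instance {n : ℕ} {t s : ∀ (M : Type) [SetStr M], (Fin n → M) → M} [UV t] [UV s] :
    UDf (fun M _ v => IsSuc (t M v) (s M v)) :=
  IsSuc_u.comp2 (R := fun _ _ a b => IsSuc a b) t s

instance {M : Type} [SetStr M] {n : ℕ} {t s : (Fin n → M) → M} [ht : DfT t] [hs : DfT s] :
    Df (fun v => IsSuc (t v) (s v)) := (IsSuc_u.df M).comp2 (R := fun a b => IsSuc a b) ht hs

theorem IsInd_u : UDf (fun M _ (w : Fin 1 → M) => IsInd (w 0)) := by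
  unfold IsInd; infer_instance

instance {n : ℕ} {t : ∀ (M : Type) [SetStr M], (Fin n → M) → M} [UV t] :
    UDf (fun M _ v => IsInd (t M v)) := IsInd_u.comp1 (R := fun _ _ a => IsInd a) t

instance {M : Type} [SetStr M] {n : ℕ} {t : (Fin n → M) → M} [ht : DfT t] :
    Df (fun v => IsInd (t v)) := (IsInd_u.df M).comp1 (R := fun a => IsInd a) ht

theorem IsOm_u : UDf (fun M _ (w : Fin 1 → M) => IsOm (w 0)) := by
  unfold IsOm; infer_instance

instance {n : ℕ} {t : ∀ (M : Type) [SetStr M], (Fin n → M) → M} [UV t] :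
    UDf (fun M _ v => IsOm (t M v)) := IsOm_u.comp1 (R := fun _ _ a => IsOm a) t

instance {M : Type} [SetStr M] {n : ℕ} {t : (Fin n → M) → M} [ht : DfT t] :
    Df (fun v => IsOm (t v)) := (IsOm_u.df M).comp1 (R := fun a => IsOm a) ht

theorem InjFun_u : UDf (fun M _ (w : Fin 3 → M) => InjFun (w 0) (w 1) (w 2)) := by
  unfold InjFun; infer_instance

instance {n : ℕ} {t s u : ∀ (M : Type) [SetStr M], (Fin n → M) → M} [UV t] [UV s] [UV u] :
    UDf (fun M _ v => InjFun (t M v) (s M v) (u M v)) :=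
  InjFun_u.comp3 (R := fun _ _ a b c => InjFun a b c) t s u

instance {M : Type} [SetStr M] {n : ℕ} {t s u : (Fin n → M) → M} [ht : DfT t] [hs : DfT s]
    [hu : DfT u] : Df (fun v => InjFun (t v) (s v) (u v)) :=
  (InjFun_u.df M).comp3 (R := fun a b c => InjFun a b c) ht hs hu

theorem Ctb_u : UDf (fun M _ (w : Fin 1 → M) => Ctb (w 0)) := by
  unfold Ctb; infer_instance

instance {n : ℕ} {t : ∀ (M : Type) [SetStr M], (Fin n → M) → M} [UV t] :
    UDf (fun M _ v => Ctb (t M v)) := Ctb_u.comp1 (R := fun _ _ a => Ctb a) t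

instance {M : Type} [SetStr M] {n : ℕ} {t : (Fin n → M) → M} [ht : DfT t] :
    Df (fun v => Ctb (t v)) := (Ctb_u.df M).comp1 (R := fun a => Ctb a) ht

theorem Fin'_u : UDf (fun M _ (w : Fin 1 → M) => Fin' (w 0)) := by
  unfold Fin'; infer_instance

instance {n : ℕ} {t : ∀ (M : Type) [SetStr M], (Fin n → M) → M} [UV t] :
    UDf (fun M _ v => Fin' (t M v)) := Fin'_u.comp1 (R := fun _ _ a => Fin' a) t

instance {M : Type} [SetStr M] {n : ℕ} {t : (Fin n → M) → M} [ht : DfT t] :
    Df (fun v => Fin' (t v)) := (Fin'_u.df M).comp1 (R := fun a => Fin' a) ht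

theorem CutU_u : UDf (fun M _ (w : Fin 3 → M) => CutU (w 0) (w 1) (w 2)) := by
  unfold CutU; infer_instance

instance {n : ℕ} {t s u : ∀ (M : Type) [SetStr M], (Fin n → M) → M} [UV t] [UV s] [UV u] :
    UDf (fun M _ v => CutU (t M v) (s M v) (u M v)) :=
  CutU_u.comp3 (R := fun _ _ a b c => CutU a b c) t s u

instance {M : Type} [SetStr M] {n : ℕ} {t s u : (Fin n → M) → M} [ht : DfT t] [hs : DfT s]
    [hu : DfT u] : Df (fun v => CutU (t v) (s v) (u v)) :=
  (CutU_u.df M).comp3 (R := fun a b c => CutU a b c) ht hs hu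

theorem UDf.comp5 {R : ∀ (M : Type) [SetStr M], M → M → M → M → M → Prop}
    (h : UDf (fun M _ (w : Fin 5 → M) => R M (w 0) (w 1) (w 2) (w 3) (w 4))) {n : ℕ}
    (t s u x y : ∀ (M : Type) [SetStr M], (Fin n → M) → M) [ht : UV t] [hs : UV s] [hu : UV u]
    [hx : UV x] [hy : UV y] : UDf (fun M _ v => R M (t M v) (s M v) (u M v) (x M v) (y M v)) := by
  obtain ⟨i, hi⟩ := ht.out
  obtain ⟨j, hj⟩ := hs.out
  obtain ⟨k, hk⟩ := hu.out
  obtain ⟨l, hl⟩ := hx.out
  obtain ⟨m, hm⟩ := hy.out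
  exact (h.ren ![i, j, k, l, m]).congr fun M _ v => by
    rw [hi M v, hj M v, hk M v, hl M v, hm M v]; exact Iff.rfl

theorem UDf.comp6 {R : ∀ (M : Type) [SetStr M], M → M → M → M → M → M → Prop}
    (h : UDf (fun M _ (w : Fin 6 → M) => R M (w 0) (w 1) (w 2) (w 3) (w 4) (w 5))) {n : ℕ}
    (t s u x y z : ∀ (M : Type) [SetStr M], (Fin n → M) → M) [ht : UV t] [hs : UV s] [hu : UV u]
    [hx : UV x] [hy : UV y] [hz : UV z] :
    UDf (fun M _ v => R M (t M v) (s M v) (u M v) (x M v) (y M v) (z M v)) := by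
  obtain ⟨i, hi⟩ := ht.out
  obtain ⟨j, hj⟩ := hs.out
  obtain ⟨k, hk⟩ := hu.out
  obtain ⟨l, hl⟩ := hx.out
  obtain ⟨m, hm⟩ := hy.out
  obtain ⟨o, ho⟩ := hz.out
  exact (h.ren ![i, j, k, l, m, o]).congr fun M _ v => by
    rw [hi M v, hj M v, hk M v, hl M v, hm M v, ho M v]; exact Iff.rfl

theorem Df.comp5 {M : Type} [SetStr M] {R : M → M → M → M → M → Prop}
    (h : Df (fun w : Fin 5 → M => R (w 0) (w 1) (w 2) (w 3) (w 4)))
    {n : ℕ} {t s u x y : (Fin n → M) → M} (ht : DfT t) (hs : DfT s) (hu : DfT u) (hx : DfT x)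
    (hy : DfT y) : Df (fun v => R (t v) (s v) (u v) (x v) (y v)) := by
  have h0 : Df (fun w : Fin (n + 1 + 1 + 1 + 1 + 1) → M => R (w 0) (w 1) (w 2) (w 3) (w 4)) :=
    h.ren ![0, 1, 2, 3, 4]
  have h1 := (h0.subst1 (ht.ren (fun i => i.succ.succ.succ.succ)))
  have h2 := (h1.congr (Q := fun w : Fin (n + 1 + 1 + 1 + 1) → M =>
    R (t (fun i => w i.succ.succ.succ.succ)) (w 0) (w 1) (w 2) (w 3)) (fun v => by
      simp only [Fin.cons_zero]
      exact Iff.rfl)).subst1 (hs.ren (fun i => i.succ.succ.succ))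
  have h3 := (h2.congr (Q := fun w : Fin (n + 1 + 1 + 1) → M =>
    R (t (fun i => w i.succ.succ.succ)) (s (fun i => w i.succ.succ.succ)) (w 0) (w 1) (w 2))
    (fun v => by
      simp only [Fin.cons_zero, Fin.cons_succ]
      exact Iff.rfl)).subst1 (hu.ren (fun i => i.succ.succ))
  have h4 := (h3.congr (Q := fun w : Fin (n + 1 + 1) → M =>
    R (t (fun i => w i.succ.succ)) (s (fun i => w i.succ.succ)) (u (fun i => w i.succ.succ))
      (w 0) (w 1)) (fun v => by
      simp only [Fin.cons_zero, Fin.cons_succ]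
      exact Iff.rfl)).subst1 (hx.ren (fun i => i.succ))
  have h5 := (h4.congr (Q := fun w : Fin (n + 1) → M =>
    R (t (fun i => w i.succ)) (s (fun i => w i.succ)) (u (fun i => w i.succ))
      (x (fun i => w i.succ)) (w 0)) (fun v => by
      simp only [Fin.cons_zero, Fin.cons_succ]
      exact Iff.rfl)).subst1 hy
  exact h5.congr fun v => by simp

theorem Df.comp6 {M : Type} [SetStr M] {R : M → M → M → M → M → M → Prop}
    (h : Df (fun w : Fin 6 → M => R (w 0) (w 1) (w 2) (w 3) (w 4) (w 5)))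
    {n : ℕ} {t s u x y z : (Fin n → M) → M} (ht : DfT t) (hs : DfT s) (hu : DfT u) (hx : DfT x)
    (hy : DfT y) (hz : DfT z) : Df (fun v => R (t v) (s v) (u v) (x v) (y v) (z v)) := by
  have h0 : Df (fun w : Fin (n + 1 + 1 + 1 + 1 + 1 + 1) → M =>
      R (w 0) (w 1) (w 2) (w 3) (w 4) (w 5)) := h.ren ![0, 1, 2, 3, 4, 5]
  have h1 := (h0.subst1 (ht.ren (fun i => i.succ.succ.succ.succ.succ)))
  have h2 := (h1.congr (Q := fun w : Fin (n + 1 + 1 + 1 + 1 + 1) → M =>
    R (t (fun i => w i.succ.succ.succ.succ.succ)) (w 0) (w 1) (w 2) (w 3) (w 4)) (fun v => by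
      simp only [Fin.cons_zero]
      exact Iff.rfl)).subst1 (hs.ren (fun i => i.succ.succ.succ.succ))
  have h3 := (h2.congr (Q := fun w : Fin (n + 1 + 1 + 1 + 1) → M =>
    R (t (fun i => w i.succ.succ.succ.succ)) (s (fun i => w i.succ.succ.succ.succ))
      (w 0) (w 1) (w 2) (w 3))
    (fun v => by
      simp only [Fin.cons_zero, Fin.cons_succ]
      exact Iff.rfl)).subst1 (hu.ren (fun i => i.succ.succ.succ))
  have h4 := (h3.congr (Q := fun w : Fin (n + 1 + 1 + 1) → M =>
    R (t (fun i => w i.succ.succ.succ)) (s (fun i => w i.succ.succ.succ))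
      (u (fun i => w i.succ.succ.succ)) (w 0) (w 1) (w 2)) (fun v => by
      simp only [Fin.cons_zero, Fin.cons_succ]
      exact Iff.rfl)).subst1 (hx.ren (fun i => i.succ.succ))
  have h5 := (h4.congr (Q := fun w : Fin (n + 1 + 1) → M =>
    R (t (fun i => w i.succ.succ)) (s (fun i => w i.succ.succ)) (u (fun i => w i.succ.succ))
      (x (fun i => w i.succ.succ)) (w 0) (w 1)) (fun v => by
      simp only [Fin.cons_zero, Fin.cons_succ]
      exact Iff.rfl)).subst1 (hy.ren (fun i => i.succ))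
  have h6 := (h5.congr (Q := fun w : Fin (n + 1) → M =>
    R (t (fun i => w i.succ)) (s (fun i => w i.succ)) (u (fun i => w i.succ))
      (x (fun i => w i.succ)) (y (fun i => w i.succ)) (w 0)) (fun v => by
      simp only [Fin.cons_zero, Fin.cons_succ]
      exact Iff.rfl)).subst1 hz
  exact h6.congr fun v => by simp

theorem AddU_u : UDf (fun M _ (w : Fin 5 → M) => AddU (w 0) (w 1) (w 2) (w 3) (w 4)) := by
  unfold AddU; infer_instance

instance {n : ℕ} {t s u x y : ∀ (M : Type) [SetStr M], (Fin n → M) → M} [UV t] [UV s] [UV u]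
    [UV x] [UV y] : UDf (fun M _ v => AddU (t M v) (s M v) (u M v) (x M v) (y M v)) :=
  UDf.comp5 (R := fun _ _ a b c d e => AddU a b c d e) AddU_u t s u x y

instance {M : Type} [SetStr M] {n : ℕ} {t s u x y : (Fin n → M) → M} [ht : DfT t] [hs : DfT s]
    [hu : DfT u] [hx : DfT x] [hy : DfT y] :
    Df (fun v => AddU (t v) (s v) (u v) (x v) (y v)) :=
  Df.comp5 (R := fun a b c d e => AddU a b c d e) (AddU_u.df M) ht hs hu hx hy

theorem FunAt_u : UDf (fun M _ (w : Fin 3 → M) => FunAt (w 0) (w 1) (w 2)) := by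
  unfold FunAt; infer_instance

instance {n : ℕ} {t s u : ∀ (M : Type) [SetStr M], (Fin n → M) → M} [UV t] [UV s] [UV u] :
    UDf (fun M _ v => FunAt (t M v) (s M v) (u M v)) :=
  FunAt_u.comp3 (R := fun _ _ a b c => FunAt a b c) t s u

instance {M : Type} [SetStr M] {n : ℕ} {t s u : (Fin n → M) → M} [ht : DfT t] [hs : DfT s]
    [hu : DfT u] : Df (fun v => FunAt (t v) (s v) (u v)) :=
  (FunAt_u.df M).comp3 (R := fun a b c => FunAt a b c) ht hs hu

/-! ### models of ZF with standard natural numbers -/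

section

variable {N : Type} [SetStr N] [ZF N]

/-- the natural numbers of `N` -/
noncomputable def nu : ℕ → N
  | 0 => emp
  | n + 1 => suc (nu n)

/-- `x` is the cut of the real number `r` -/
def IsCutOf (x : N) (r : ℝ) : Prop :=
  (∀ z, E z x → E z om) ∧ ∀ j : ℕ, E (nu j) x ↔ (qq j : ℝ) < r

/-- a tuple of natural numbers -/
noncomputable def tupv : (n : ℕ) → (Fin (n + 1) → N) → N
  | 0, t => t 0
  | n + 1, t => opair (t 0) (tupv n (fun i => t i.succ))

/-- The natural numbers of `N` are standard and `N` contains the codes of some relations. -/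
structure Codes (N : Type) [SetStr N] [ZF N] where
  /-- the order of the rationals -/
  lt : N
  /-- the addition of the rationals -/
  ad : N
  /-- the numbers `1 / (n + 1)` -/
  hc : N
  /-- multiplication -/
  mu : N
  /-- inverses -/
  iv : N
  std : ∀ x : N, E x om → ∃ n, x = nu n
  hlt : ∀ i j, E (opair (nu i) (nu j)) lt ↔ qq i < qq j
  had : ∀ i j k, E (opair (nu i) (opair (nu j) (nu k))) ad ↔ qq k ≤ qq i + qq j
  hhc : ∀ n j, E (opair (nu n) (nu j)) hc ↔ (qq j : ℝ) < 1 / ((n : ℝ) + 1)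
  hmu : ∀ t : Fin 5 → ℕ, E (tupv 4 (fun i => nu (t i))) mu ↔ ∀ a b : ℝ,
    qq (t 0) < a → a ≤ qq (t 1) → qq (t 2) < b → b ≤ qq (t 3) → qq (t 4) < a * b
  hiv : ∀ t : Fin 3 → ℕ, E (tupv 2 (fun i => nu (t i))) iv ↔ ∀ a : ℝ,
    qq (t 0) < a → a ≤ qq (t 1) → qq (t 2) < a⁻¹

/-- the set of all real numbers (cuts) of `N` -/
noncomputable def KS (c : Codes N) : N := sep (pow om) (fun x => CutU c.lt om x)

/-- A real line of `N`, with its embedding in the real numbers. -/
structure Line (c : Codes N) where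
  /-- the graph of addition -/
  ad : N
  /-- the graph of multiplication -/
  mu : N
  /-- the order -/
  lt : N
  /-- the field structure -/
  fld : Field {x : N // E x (KS c)}
  /-- the order -/
  lo : LinearOrder {x : N // E x (KS c)}
  sor : IsStrictOrderedRing {x : N // E x (KS c)}
  had : ∀ a b d : {x : N // E x (KS c)}, Tri a.1 b.1 d.1 ad ↔ a + b = d
  hmu : ∀ a b d : {x : N // E x (KS c)}, Tri a.1 b.1 d.1 mu ↔ a * b = d
  hlt : ∀ a b : {x : N // E x (KS c)}, PairIn a.1 b.1 lt ↔ a < b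
  lub : ∀ A : N, (∃ a : {x : N // E x (KS c)}, E a.1 A) →
    (∃ b : {x : N // E x (KS c)}, ∀ a : {x : N // E x (KS c)}, E a.1 A → a ≤ b) →
    ∃ b : {x : N // E x (KS c)}, IsLUB {a : {x : N // E x (KS c)} | E a.1 A} b
  /-- the embedding in the real numbers -/
  φ : {x : N // E x (KS c)} → ℝ
  cut : ∀ x, IsCutOf x.1 (φ x)
  φadd : ∀ x y, φ (x + y) = φ x + φ y
  φlt : ∀ x y, x < y ↔ φ x < φ y

end

end CUR
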